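import Pool.Agent.SCT.StmtsP

/-! # Squad SCT, row HSD: a point of a hypersurface over the ground field. -/

set_option autoImplicit false

namespace Pool.Agent.SCT.H30

open MvPolynomial

/-- scaling of a homogeneous polynomial -/
theorem aeval_scale {K B σ : Type} [CommRing K] [CommRing B] [Algebra K B]
    {f : MvPolynomial σ K} {d : ℕ} (hf : f.IsHomogeneous d) (x : σ → B) (c : B) :
    aeval (fun i => c * x i) f = c ^ d * aeval x f := by
  rw [aeval_def, eval₂_eq, aeval_def, eval₂_eq, Finset.mul_sum]
  apply Finset.sum_congr rfl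
  intro m hm
  have h1 : ∑ i ∈ m.support, m i = d := by
    have h2 := hf (mem_support_iff.1 hm)
    rw [← h2, Finsupp.weight_apply, Finsupp.sum]
    apply Finset.sum_congr rfl
    intro i _
    simp
  have h3 : ∏ i ∈ m.support, (c * x i) ^ m i = c ^ d * ∏ i ∈ m.support, x i ^ m i := by
    rw [← h1, ← Finset.prod_pow_eq_pow_sum, ← Finset.prod_mul_distrib]
    apply Finset.prod_congr rfl
    intro i _
    rw [mul_pow]
  rw [h3]
  ring

theorem ncard_range_le {α β : Type} [Fintype α] (g : α → β) :
    (Set.range g).ncard ≤ Fintype.card α := by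
  rw [← Set.image_univ]
  refine (Set.ncard_image_le Set.finite_univ).trans ?_
  rw [Set.ncard_univ, Nat.card_eq_fintype_card]

theorem injective_of_ncard {α β : Type} [Fintype α] (g : α → β)
    (h : (Set.range g).ncard = Fintype.card α) : Function.Injective g := by
  rw [← Set.injOn_univ]
  apply Set.injOn_of_ncard_image_eq _ Set.finite_univ
  rw [Set.image_univ, h, Set.ncard_univ, Nat.card_eq_fintype_card]

/-- the transcendence degree of a field with few generators -/
theorem trdeg_lt {k Ω ι : Type} [Field k] [Field Ω] [Algebra k Ω] [Fintype ι] (v : ι → Ω) (n : ℕ)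
    (hc : Fintype.card ι = n + 1) (hv : ¬ AlgebraicIndependent k v) :
    Algebra.trdeg k (IntermediateField.adjoin k (Set.range v)) ≤ (n : Cardinal) := by
  classical
  obtain ⟨K, hK⟩ : ∃ K, K = IntermediateField.adjoin k (Set.range v) := ⟨_, rfl⟩
  obtain ⟨v', hv'⟩ : ∃ v' : ι → IntermediateField.adjoin k (Set.range v), ∀ l, (v' l : Ω) = v l :=
    ⟨fun l => ⟨v l, IntermediateField.subset_adjoin _ _ ⟨l, rfl⟩⟩, fun _ => rfl⟩
  have h1 : IntermediateField.adjoin k (Set.range v') = ⊤ := by
    apply IntermediateField.map_injective (IntermediateField.adjoin k (Set.range v)).val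
    rw [IntermediateField.adjoin_map, ← AlgHom.fieldRange_eq_map,
      IntermediateField.fieldRange_val]
    congr 1
    ext z
    constructor
    · rintro ⟨_, ⟨l, rfl⟩, rfl⟩
      exact ⟨l, (hv' l).symm⟩
    · rintro ⟨l, rfl⟩
      exact ⟨v' l, ⟨l, rfl⟩, hv' l⟩
  have h2 : Algebra.IsAlgebraic (Algebra.adjoin k (Set.range v'))
      (IntermediateField.adjoin k (Set.range v)) := by
    rw [← IntermediateField.isAlgebraic_adjoin_iff_top, h1, Algebra.isAlgebraic_iff_isIntegral]
    exact Algebra.isIntegral_of_surjective IntermediateField.topEquiv.surjective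
  obtain ⟨t, hts, ht⟩ := exists_isTranscendenceBasis_subset (R := k) (Set.range v')
  have h3 : Cardinal.mk t = Algebra.trdeg k (IntermediateField.adjoin k (Set.range v)) :=
    ht.cardinalMk_eq_trdeg
  rw [← h3]
  have hfin : t.Finite := (Set.finite_range v').subset hts
  have h4 : Cardinal.mk t = (t.ncard : Cardinal) := by
    rw [← Set.cast_ncard hfin]
  rw [h4, Nat.cast_le]
  by_contra hcon
  push Not at hcon
  apply hv
  have h5 : (Set.range v').ncard ≤ n + 1 := (ncard_range_le v').trans hc.le
  have h6 : t = Set.range v' := Set.eq_of_subset_of_ncard_le hts (by omega) (Set.finite_range v')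
  have h7 : Function.Injective v' := by
    have h8 : (Set.range v').ncard = n + 1 := by
      apply le_antisymm h5
      rw [← h6]
      omega
    exact injective_of_ncard v' (h8.trans hc.symm)
  have h9 : AlgebraicIndependent k v' := by
    have h10 : AlgebraicIndependent k ((↑) : t → IntermediateField.adjoin k (Set.range v)) := ht.1
    rw [h6] at h10
    exact (algebraicIndependent_subtype_range h7).1 h10
  have h11 : AlgebraicIndependent k
      ((IntermediateField.adjoin k (Set.range v)).val ∘ v') :=
    h9.map' Subtype.val_injective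
  have h12 : ((IntermediateField.adjoin k (Set.range v)).val ∘ v') = v := by
    funext l
    exact hv' l
  rw [← h12]
  exact h11

theorem trdeg_mono' {k Ω : Type} [Field k] [Field Ω] [Algebra k Ω] {C D : IntermediateField k Ω}
    (h : C ≤ D) {d : ℕ} (hd : Algebra.trdeg k D ≤ (d : Cardinal)) :
    Algebra.trdeg k C ≤ (d : Cardinal) :=
  (trdeg_le_of_injective (IntermediateField.inclusion h)
    (IntermediateField.inclusion_injective h)).trans hd

theorem rat_le' {k Ω ι : Type} [Field k] [Field Ω] [Algebra k Ω] {C : IntermediateField k Ω}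
    {y : ι → Ω} {s : Ω} (hs : s ≠ 0) (h : ∀ i, y i / s ∈ C) : rat k y ≤ C := by
  unfold rat
  rw [IntermediateField.adjoin_le_iff]
  rintro _ ⟨i, j, rfl⟩
  have h1 : y i / y j = (y i / s) / (y j / s) := (div_div_div_cancel_right₀ hs _ _).symm
  rw [h1]
  exact div_mem (h i) (h j)

/-- **HSD** -/
theorem hsd : HsdStmt := by
  classical
  intro k Ω _ _ _ n d f x hf hf0 hx
  have key : ∀ j : Fin (n + 2), ¬ AlgebraicIndependent k
      (fun l : {l : Fin (n + 2) // l ≠ j} => x (l : Fin (n + 2)) / x j) ∨ x j = 0 := by
    intro j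
    by_cases hj : x j = 0
    · exact Or.inr hj
    refine Or.inl fun hind => ?_
    obtain ⟨φ, hφ⟩ : ∃ φ : Fin (n + 2) → MvPolynomial {l : Fin (n + 2) // l ≠ j} k,
        ∀ l, φ l = if h : l = j then 1 else X ⟨l, h⟩ := ⟨_, fun _ => rfl⟩
    have hsub : ∀ (B : Type) [Field B] [Algebra k B] (y : Fin (n + 2) → B), y j ≠ 0 →
        aeval (fun l : {l : Fin (n + 2) // l ≠ j} => y (l : Fin (n + 2)) / y j) (aeval φ f)
          = (y j)⁻¹ ^ d * aeval y f := by
      intro B _ _ y hy
      rw [← aeval_scale hf, ← AlgHom.comp_apply]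
      congr 1
      apply MvPolynomial.algHom_ext
      intro l
      rw [AlgHom.comp_apply, aeval_X, aeval_X, hφ]
      by_cases hl : l = j
      · rw [dif_pos hl, map_one, hl, inv_mul_cancel₀ hy]
      · rw [dif_neg hl, aeval_X, div_eq_mul_inv, mul_comm]
    have h1 : aeval φ f = 0 := by
      have h2 := hsub Ω x hj
      rw [hx, mul_zero] at h2
      exact (algebraicIndependent_iff.1 hind) _ h2
    have hinj : Function.Injective (algebraMap (MvPolynomial (Fin (n + 2)) k)
        (FractionRing (MvPolynomial (Fin (n + 2)) k))) := IsFractionRing.injective _ _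
    have h3 := hsub (FractionRing (MvPolynomial (Fin (n + 2)) k))
      (fun l => algebraMap (MvPolynomial (Fin (n + 2)) k) _ (X l)) (by
        intro h0
        exact X_ne_zero j (hinj (h0.trans (map_zero _).symm)))
    rw [h1, map_zero] at h3
    have h4 : aeval (fun l => algebraMap (MvPolynomial (Fin (n + 2)) k)
        (FractionRing (MvPolynomial (Fin (n + 2)) k)) (X l)) f
        = algebraMap (MvPolynomial (Fin (n + 2)) k) _ f := by
      have h5 : aeval (fun l => algebraMap (MvPolynomial (Fin (n + 2)) k)
        (FractionRing (MvPolynomial (Fin (n + 2)) k)) (X l))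
        = IsScalarTower.toAlgHom k (MvPolynomial (Fin (n + 2)) k)
          (FractionRing (MvPolynomial (Fin (n + 2)) k)) := by
        apply MvPolynomial.algHom_ext
        intro l
        rw [aeval_X]
        rfl
      rw [h5]
      rfl
    rw [h4] at h3
    rcases mul_eq_zero.1 h3.symm with h6 | h6
    · have h8 : (algebraMap (MvPolynomial (Fin (n + 2)) k)
        (FractionRing (MvPolynomial (Fin (n + 2)) k)) (X j))⁻¹ ≠ 0 := by
        apply inv_ne_zero
        intro h0
        exact X_ne_zero j (hinj (h0.trans (map_zero _).symm))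
      exact pow_ne_zero d h8 h6
    · exact hf0 (hinj (h6.trans (map_zero _).symm))
  unfold DimLe
  by_cases hw : x = 0
  · have h0 : rat k x ≤ ⊥ := by
      unfold rat
      rw [IntermediateField.adjoin_le_iff]
      rintro _ ⟨i, j, rfl⟩
      rw [hw]
      change (0 : Ω) / 0 ∈ _
      rw [zero_div]
      exact zero_mem _
    refine trdeg_mono' h0 ?_
    have h1 : Algebra.trdeg k (⊥ : IntermediateField k Ω) = 0 := by
      have h2 : Algebra.IsAlgebraic k (⊥ : IntermediateField k Ω) := inferInstance
      exact _root_.trdeg_eq_zero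
    rw [h1]
    exact zero_le
  obtain ⟨j, hj⟩ : ∃ j, x j ≠ 0 := by
    by_contra h
    push Not at h
    exact hw (funext h)
  have h1 := (key j).resolve_right hj
  have hcard : Fintype.card {l : Fin (n + 2) // l ≠ j} = n + 1 := by
    rw [Fintype.card_subtype_compl, Fintype.card_fin, Fintype.card_subtype_eq]
    rfl
  refine trdeg_mono' (rat_le' hj fun l => ?_) (trdeg_lt _ n hcard h1)
  by_cases hl : l = j
  · rw [hl, div_self hj]
    exact one_mem _
  · exact IntermediateField.subset_adjoin _ _ ⟨⟨l, hl⟩, rfl⟩

end Pool.Agent.SCT.H30
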